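import Pool.Agent.LE.StmtsW

/-!
# Row NUM of the weak disorder bound: the numbers
-/

set_option autoImplicit false

open Real Filter Topology

namespace Pool.Agent.LE.H15W

/-- Exponentials are smaller than powers. -/
theorem exp_le_rpow (a c p : ℝ) (ha : 0 < a) (hc : 0 < c) :
    ∃ K : ℝ, 0 < K ∧ ∀ L : ℝ, 1 ≤ L → exp (-(a * L ^ c)) ≤ K * L ^ (-p) := by
  obtain ⟨m, hm⟩ := exists_nat_ge (p / c)
  have hm' : p ≤ c * m := by
    rw [div_le_iff₀ hc] at hm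
    linarith
  refine ⟨m.factorial / a ^ m, by positivity, fun L hL => ?_⟩
  have hL0 : 0 < L := by linarith
  have hy : 0 < a * L ^ c := by positivity
  have h1 : (a * L ^ c) ^ m / m.factorial ≤ exp (a * L ^ c) :=
    Real.pow_div_factorial_le_exp _ hy.le m
  have hf : (0 : ℝ) < m.factorial := by exact_mod_cast m.factorial_pos
  have h2 : exp (-(a * L ^ c)) ≤ m.factorial / (a * L ^ c) ^ m := by
    rw [exp_neg, inv_le_comm₀ (exp_pos _) (by positivity), inv_div]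
    exact h1
  refine h2.trans ?_
  rw [mul_pow, ← rpow_natCast (L ^ c) m, ← rpow_mul hL0.le]
  have h3 : m.factorial / (a ^ m * L ^ (c * m)) = m.factorial / a ^ m * L ^ (-(c * m)) := by
    rw [rpow_neg hL0.le]
    field_simp
  rw [h3]
  refine mul_le_mul_of_nonneg_left ?_ (by positivity)
  exact rpow_le_rpow_of_exponent_le hL (by linarith)

/-- The constant `K₀`. -/
theorem exists_K0 (a b c : ℝ) (hb : 0 ≤ b) : ∃ K : ℝ, 1 ≤ K ∧ a + b * log (22 * K) + c ≤ K / 2 := by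
  have h1 : Tendsto (fun x : ℝ => log x / x) atTop (𝓝 0) := by
    have := Real.isLittleO_log_id_atTop.tendsto_div_nhds_zero
    exact this
  have h2 : ∀ᶠ x : ℝ in atTop, log x / x < 1 / (88 * (b + 1)) :=
    h1.eventually_lt_const (by positivity)
  have h3 : ∀ᶠ x : ℝ in atTop, 22 ≤ x := eventually_ge_atTop 22
  have h4 : ∀ᶠ x : ℝ in atTop, 88 * (a + c) ≤ x := eventually_ge_atTop _
  obtain ⟨x, hx2, hx3, hx4⟩ := (h2.and (h3.and h4)).exists
  have hx0 : 0 < x := by linarith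
  refine ⟨x / 22, by linarith, ?_⟩
  have h5 : (22 : ℝ) * (x / 22) = x := by ring
  rw [h5]
  rw [div_lt_iff₀ hx0] at hx2
  have h6 : b * log x ≤ x / 88 := by
    have h7 : b * (1 / (88 * (b + 1)) * x) ≤ x / 88 := by
      have : b * (1 / (88 * (b + 1)) * x) = (b / (b + 1)) * (x / 88) := by field_simp
      rw [this]
      have h8 : b / (b + 1) ≤ 1 := by
        rw [div_le_one (by linarith)]
        linarith
      have h9 : 0 ≤ x / 88 := by positivity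
      exact mul_le_of_le_one_left h9 h8
    exact (mul_le_mul_of_nonneg_left hx2.le hb).trans h7
  linarith

theorem num : NumStmt := by
  intro d A hd hA
  have hd1 : (1 : ℝ) ≤ d := by exact_mod_cast hd
  have hd0 : (0 : ℝ) < d := by linarith
  set c₁ : ℝ := 5 / (4 * (d + 4)) with hc₁
  set c₂ : ℝ := 1 / (4 * d * (d + 4)) with hc₂
  have hc1 : 0 < c₁ := by positivity
  have hc2 : 0 < c₂ := by positivity
  have hcd : d * (1 / ((d : ℝ) * (d + 4)) + c₂) = c₁ := by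
    rw [hc₁, hc₂]
    field_simp
    ring
  have hc34 : (c₁ + c₂) * (d + 4) ≤ 3 / 2 := by
    have h1 : (c₁ + c₂) * (d + 4) = 5 / 4 + 1 / (4 * d) := by
      rw [hc₁, hc₂]
      field_simp
    have h2 : 1 / (4 * (d : ℝ)) ≤ 1 / 4 := by
      apply one_div_le_one_div_of_le <;> linarith
    rw [h1]
    linarith
  obtain ⟨q₁, hq₁⟩ := exists_nat_ge ((A + d * c₁ + c₂ * (d + 1) + c₁) / c₂)
  refine ⟨max d q₁, le_max_left _ _, ?_⟩
  set q := max d q₁ with hq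
  have hqq : A + d * c₁ + c₂ * (d + 1) + c₁ ≤ c₂ * q := by
    have h1 : (q₁ : ℝ) ≤ q := by exact_mod_cast le_max_right _ _
    have h2 : (A + d * c₁ + c₂ * (d + 1) + c₁) / c₂ ≤ q := hq₁.trans h1
    rw [div_le_iff₀ hc2] at h2
    linarith
  intro C' hC'
  obtain ⟨K₀, hK₀, hK₀'⟩ := exists_K0 (log (16 * d)) d (d * (c₁ + c₂) / c₂) hd0.le
  have hK0 : 0 < K₀ := by linarith
  set a : ℝ := (22 * K₀) ^ (d + 4) with ha
  have ha0 : 0 < a := by positivity
  obtain ⟨K₁, hK₁, hexp₁⟩ := exp_le_rpow (1 / (64 * √a)) (1 / 4) (d * (c₁ + c₂) + c₁)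
    (by positivity) (by norm_num)
  obtain ⟨K₂, hK₂, hexp₂⟩ := exp_le_rpow (K₀ / 2) c₂ (d * (c₁ + c₂) + 1 + c₁)
    (by positivity) hc2
  set T₁ : ℝ := 16 * 3 ^ d * (22 * K₀) ^ d * K₁ with hT₁
  set T₂ : ℝ := 64 * d * 3 ^ d * (26 * K₀) ^ d * K₂ with hT₂
  set T₃ : ℝ := 4 * 3 ^ d with hT₃
  set T₄ : ℝ := (2 ^ d + 2 * 17 ^ d) * (4 * 3 ^ d * (d * (C' * (2 * K₀) ^ (d + 1)))) with hT₄
  have hT₁0 : 0 < T₁ := by positivity
  have hT₂0 : 0 < T₂ := by positivity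
  have hT₃0 : 0 < T₃ := by positivity
  have hT₄0 : 0 < T₄ := by positivity
  set K : ℝ := T₁ + T₂ + T₃ + T₄ with hK
  have hKpos : 0 < K := by positivity
  refine ⟨17 * (K + 1), by linarith, ?_⟩
  intro σ κ hσ hσ1 hκ
  have hσ0 : 0 < |σ| := abs_pos.mpr hσ
  set L : ℝ := |σ|⁻¹ with hL
  have hL0 : 0 < L := by positivity
  have hL1 : 1 ≤ L := by
    rw [hL, one_le_inv₀ hσ0]
    exact hσ1
  have hσL : ∀ e : ℝ, |σ| ^ e = L ^ (-e) := by
    intro e
    rw [hL, inv_rpow hσ0.le, rpow_neg hσ0.le, inv_inv]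
  have hLc1 : 1 ≤ L ^ c₁ := one_le_rpow hL1 hc1.le
  have hLc2 : 1 ≤ L ^ c₂ := one_le_rpow hL1 hc2.le
  set M : ℕ := ⌊L ^ c₁⌋₊ with hM
  set s : ℕ := ⌈K₀ * L ^ c₂⌉₊ with hs
  have hM1 : 1 ≤ M := by
    rw [hM, Nat.one_le_floor_iff]
    exact hLc1
  have hM1' : (1 : ℝ) ≤ M := by exact_mod_cast hM1
  have hMle : (M : ℝ) ≤ L ^ c₁ := Nat.floor_le (by positivity)
  have hMge : L ^ c₁ / 2 ≤ M := by
    have h1 : L ^ c₁ < M + 1 := Nat.lt_floor_add_one _
    linarith only [h1, hM1']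
  have hsge : K₀ * L ^ c₂ ≤ s := Nat.le_ceil _
  have hKL1 : 1 ≤ K₀ * L ^ c₂ := one_le_mul_of_one_le_of_one_le hK₀ hLc2
  have hs1' : (1 : ℝ) ≤ s := hKL1.trans hsge
  have hs1 : 1 ≤ s := by exact_mod_cast hs1'
  have hsle : (s : ℝ) ≤ 2 * K₀ * L ^ c₂ := by
    have h1 : (s : ℝ) < K₀ * L ^ c₂ + 1 := Nat.ceil_lt_add_one (by positivity)
    linarith only [h1, hKL1]
  have hMs1 : (1 : ℝ) ≤ M * s := one_le_mul_of_one_le_of_one_le hM1' hs1'
  have hMs : (M : ℝ) * s ≤ 2 * K₀ * L ^ (c₁ + c₂) := by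
    rw [rpow_add hL0]
    calc (M : ℝ) * s ≤ L ^ c₁ * (2 * K₀ * L ^ c₂) :=
          mul_le_mul hMle hsle (by positivity) (by positivity)
      _ = 2 * K₀ * (L ^ c₁ * L ^ c₂) := by ring
  set X : ℝ := 8 * (M * s) + 3 with hX
  have hX1 : 1 ≤ X := by rw [hX]; linarith only [hMs1]
  have hX0 : 0 < X := by linarith only [hX1]
  have hXle : X ≤ 22 * K₀ * L ^ (c₁ + c₂) := by rw [hX]; linarith only [hMs, hMs1]
  have hX5 : 8 * ((M : ℝ) * s) + 5 ≤ 26 * K₀ * L ^ (c₁ + c₂) := by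
    linarith only [hMs, hMs1]
  have hpowd : ∀ k : ℕ, (L ^ (c₁ + c₂)) ^ k = L ^ ((c₁ + c₂) * k) := by
    intro k
    rw [← rpow_natCast, ← rpow_mul hL0.le]
  -- the number v
  have hXa : X ^ (d + 4) ≤ a * L ^ (3 / 2 : ℝ) := by
    calc X ^ (d + 4) ≤ (22 * K₀ * L ^ (c₁ + c₂)) ^ (d + 4) :=
          pow_le_pow_left₀ hX0.le hXle _
      _ = a * L ^ ((c₁ + c₂) * ((d + 4 : ℕ) : ℝ)) := by rw [mul_pow, hpowd]
      _ ≤ a * L ^ (3 / 2 : ℝ) := by
          refine mul_le_mul_of_nonneg_left ?_ ha0.le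
          refine rpow_le_rpow_of_exponent_le hL1 ?_
          push_cast
          exact hc34
  have hsq : √(X ^ (d + 4)) ≤ √a * L ^ (3 / 4 : ℝ) := by
    have h1 : √(a * L ^ (3 / 2 : ℝ)) = √a * L ^ (3 / 4 : ℝ) := by
      rw [Real.sqrt_mul ha0.le, Real.sqrt_eq_rpow (L ^ (3 / 2 : ℝ)), ← rpow_mul hL0.le]
      norm_num
    rw [← h1]
    exact Real.sqrt_le_sqrt hXa
  have hsqpos : 0 < √(X ^ (d + 4)) := Real.sqrt_pos.mpr (by positivity)
  set v : ℝ := 1 / (64 * √(X ^ (d + 4))) with hv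
  have hv0 : 0 < v := by positivity
  have hvσ : 1 / (64 * √a) * L ^ (1 / 4 : ℝ) ≤ v / |σ| := by
    have h1 : v / |σ| = L / (64 * √(X ^ (d + 4))) := by
      rw [hv, hL]
      field_simp
    rw [h1]
    have h2 : L / (64 * (√a * L ^ (3 / 4 : ℝ))) ≤ L / (64 * √(X ^ (d + 4))) := by
      apply div_le_div_of_nonneg_left hL0.le (by positivity)
      linarith only [hsq]
    refine le_trans (le_of_eq ?_) h2
    have h3 : L = L ^ (1 / 4 : ℝ) * L ^ (3 / 4 : ℝ) := by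
      rw [← rpow_add hL0]
      norm_num
    have h4 : L / (64 * (√a * L ^ (3 / 4 : ℝ))) =
        (L ^ (1 / 4 : ℝ) * L ^ (3 / 4 : ℝ)) / (64 * (√a * L ^ (3 / 4 : ℝ))) := by
      rw [← h3]
    rw [h4]
    have h5 : 0 < L ^ (3 / 4 : ℝ) := by positivity
    have h6 : 0 < √a := Real.sqrt_pos.mpr ha0
    field_simp
  refine ⟨s, M, L ^ c₂, v, hs1, hM1, hLc2, hv0.le, ?_, ?_, ?_⟩
  · -- (64 v)² X^(d+4) ≤ 1
    have h1 : (64 * v) ^ 2 * X ^ (d + 4) = 1 := by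
      have h2 : √(X ^ (d + 4)) ^ 2 = X ^ (d + 4) := Real.sq_sqrt (by positivity)
      have h3 : 64 * v = 1 / √(X ^ (d + 4)) := by
        rw [hv]
        field_simp
      rw [h3, div_pow, h2, one_pow]
      field_simp
    exact h1.le
  · -- the logarithm
    have h1 : log (16 * d * X ^ d) = log (16 * d) + d * log X := by
      rw [log_mul (by positivity) (by positivity), log_pow]
    have h2 : log X ≤ log (22 * K₀) + (c₁ + c₂) * log L := by
      calc log X ≤ log (22 * K₀ * L ^ (c₁ + c₂)) := log_le_log hX0 hXle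
        _ = log (22 * K₀) + (c₁ + c₂) * log L := by
            rw [log_mul (by positivity) (by positivity), log_rpow hL0]
    have h3 : log L ≤ L ^ c₂ / c₂ := by
      have h4 : log (L ^ c₂) ≤ L ^ c₂ := by
        have := Real.log_le_sub_one_of_pos (show 0 < L ^ c₂ by positivity)
        linarith only [this]
      rw [log_rpow hL0] at h4
      rw [le_div_iff₀ hc2]
      linarith only [h4]
    have h5 : (d : ℝ) * log X ≤ d * log (22 * K₀) + d * (c₁ + c₂) / c₂ * L ^ c₂ := by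
      have h6 : (c₁ + c₂) * log L ≤ (c₁ + c₂) * (L ^ c₂ / c₂) :=
        mul_le_mul_of_nonneg_left h3 (by positivity)
      have h7 : (d : ℝ) * log X ≤ d * (log (22 * K₀) + (c₁ + c₂) * (L ^ c₂ / c₂)) :=
        mul_le_mul_of_nonneg_left (by linarith only [h2, h6]) hd0.le
      refine h7.trans (le_of_eq ?_)
      ring
    have h8 : 0 ≤ log (16 * (d : ℝ)) := log_nonneg (by linarith only [hd1])
    have h9 : 0 ≤ (d : ℝ) * log (22 * K₀) :=
      mul_nonneg hd0.le (log_nonneg (by linarith only [hK₀]))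
    have h10 : log (16 * (d : ℝ)) + d * log (22 * K₀) ≤
        (log (16 * (d : ℝ)) + d * log (22 * K₀)) * L ^ c₂ :=
      le_mul_of_one_le_right (add_nonneg h8 h9) hLc2
    have h11 : (log (16 * (d : ℝ)) + d * log (22 * K₀) + d * (c₁ + c₂) / c₂) * L ^ c₂ ≤
        K₀ / 2 * L ^ c₂ := mul_le_mul_of_nonneg_right hK₀' (by positivity)
    rw [h1]
    have h12 : (log (16 * (d : ℝ)) + d * log (22 * K₀) + d * (c₁ + c₂) / c₂) * L ^ c₂ =
        (log (16 * (d : ℝ)) + d * log (22 * K₀)) * L ^ c₂ + d * (c₁ + c₂) / c₂ * L ^ c₂ := by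
      ring
    have h13 := mul_le_mul_of_nonneg_right hsge (by norm_num : (0 : ℝ) ≤ 1 / 2)
    linarith only [h5, h10, h11, h12, h13]
  · -- the main inequality
    have hLn : 0 < L ^ (-c₁) := by positivity
    have hexpv : exp (-(v / |σ|)) ≤ K₁ * L ^ (-(d * (c₁ + c₂) + c₁)) := by
      exact le_trans (exp_le_exp.mpr (neg_le_neg hvσ)) (hexp₁ L hL1)
    have hexps : exp (-(s / 2 : ℝ)) ≤ K₂ * L ^ (-(d * (c₁ + c₂) + 1 + c₁)) := by
      refine le_trans (exp_le_exp.mpr ?_) (hexp₂ L hL1)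
      linarith only [hsge]
    have hXd : X ^ d ≤ (22 * K₀) ^ d * L ^ ((c₁ + c₂) * d) := by
      calc X ^ d ≤ (22 * K₀ * L ^ (c₁ + c₂)) ^ d := pow_le_pow_left₀ hX0.le hXle _
        _ = _ := by rw [mul_pow, hpowd]
    have hX5d : (8 * ((M : ℝ) * s) + 5) ^ d ≤ (26 * K₀) ^ d * L ^ ((c₁ + c₂) * d) := by
      calc (8 * ((M : ℝ) * s) + 5) ^ d ≤ (26 * K₀ * L ^ (c₁ + c₂)) ^ d :=
            pow_le_pow_left₀ (by positivity) hX5 _
        _ = _ := by rw [mul_pow, hpowd]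
    have e1 : L ^ ((c₁ + c₂) * d) * L ^ (-(d * (c₁ + c₂) + c₁)) = L ^ (-c₁) := by
      rw [← rpow_add hL0]
      ring_nf
    have e2 : L ^ ((c₁ + c₂) * d) * L * L ^ (-(d * (c₁ + c₂) + 1 + c₁)) = L ^ (-c₁) := by
      have h1 : L ^ ((c₁ + c₂) * d) * L = L ^ ((c₁ + c₂) * d + 1) := by
        rw [rpow_add hL0, rpow_one]
      rw [h1, ← rpow_add hL0]
      ring_nf
    have b1 : X ^ d * exp (-(v / |σ|)) ≤ (22 * K₀) ^ d * K₁ * L ^ (-c₁) := by
      calc X ^ d * exp (-(v / |σ|)) ≤ ((22 * K₀) ^ d * L ^ ((c₁ + c₂) * d)) *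
            (K₁ * L ^ (-(d * (c₁ + c₂) + c₁))) :=
            mul_le_mul hXd hexpv (exp_pos _).le (by positivity)
        _ = (22 * K₀) ^ d * K₁ * (L ^ ((c₁ + c₂) * d) * L ^ (-(d * (c₁ + c₂) + c₁))) := by ring
        _ = _ := by rw [e1]
    have b2 : (8 * ((M : ℝ) * s) + 5) ^ d * (L * exp (-(s / 2 : ℝ))) ≤
        (26 * K₀) ^ d * K₂ * L ^ (-c₁) := by
      calc (8 * ((M : ℝ) * s) + 5) ^ d * (L * exp (-(s / 2 : ℝ))) ≤
            ((26 * K₀) ^ d * L ^ ((c₁ + c₂) * d)) *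
              (L * (K₂ * L ^ (-(d * (c₁ + c₂) + 1 + c₁)))) :=
            mul_le_mul hX5d (mul_le_mul_of_nonneg_left hexps hL0.le)
              (mul_nonneg hL0.le (exp_pos _).le) (by positivity)
        _ = (26 * K₀) ^ d * K₂ *
            (L ^ ((c₁ + c₂) * d) * L * L ^ (-(d * (c₁ + c₂) + 1 + c₁))) := by ring
        _ = _ := by rw [e2]
    have h16 : 16 / |σ| = 16 * L := by rw [hL]; ring
    have t12 : 4 * (X ^ d * (4 * exp (-(v / |σ|))) +
        d * (8 * ((M : ℝ) * s) + 5) ^ d * (16 / |σ| * exp (-(s / 2 : ℝ)))) * 3 ^ d ≤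
          (T₁ + T₂) * L ^ (-c₁) := by
      have h3 : (0 : ℝ) < 3 ^ d := by positivity
      have h1 : 4 * (X ^ d * (4 * exp (-(v / |σ|))) +
          d * (8 * ((M : ℝ) * s) + 5) ^ d * (16 / |σ| * exp (-(s / 2 : ℝ)))) * 3 ^ d =
            16 * 3 ^ d * (X ^ d * exp (-(v / |σ|))) +
            64 * d * 3 ^ d * ((8 * ((M : ℝ) * s) + 5) ^ d * (L * exp (-(s / 2 : ℝ)))) := by
        rw [h16]
        ring
      have h4 : (T₁ + T₂) * L ^ (-c₁) = 16 * 3 ^ d * ((22 * K₀) ^ d * K₁ * L ^ (-c₁)) +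
          64 * d * 3 ^ d * ((26 * K₀) ^ d * K₂ * L ^ (-c₁)) := by
        rw [hT₁, hT₂]
        ring
      rw [h1, h4]
      exact add_le_add (mul_le_mul_of_nonneg_left b1 (by positivity))
        (mul_le_mul_of_nonneg_left b2 (by positivity))
    have t3 : 2 * 3 ^ d / (M : ℝ) ≤ T₃ * L ^ (-c₁) := by
      rw [div_le_iff₀ (by linarith only [hM1']), hT₃, rpow_neg hL0.le]
      have h1 : 0 < L ^ c₁ := by positivity
      have h2 : 4 * 3 ^ d * (L ^ c₁)⁻¹ * (L ^ c₁ / 2) = 2 * 3 ^ d := by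
        field_simp
        norm_num
      calc (2 : ℝ) * 3 ^ d = 4 * 3 ^ d * (L ^ c₁)⁻¹ * (L ^ c₁ / 2) := h2.symm
        _ ≤ 4 * 3 ^ d * (L ^ c₁)⁻¹ * M := mul_le_mul_of_nonneg_left hMge (by positivity)
    have t4 : (2 ^ d + 2 * (8 * (M : ℝ) + 9) ^ d / M) *
        (4 * 3 ^ d * (d * (C' * |σ| ^ (-A) * (s : ℝ) ^ (q + d + 1) / (L ^ c₂ * s) ^ q))) ≤
          T₄ * L ^ (-c₁) := by
      have h1 : (8 * (M : ℝ) + 9) ^ d / M ≤ 17 ^ d * L ^ (c₁ * d) := by
        have h2 : (8 * (M : ℝ) + 9) ^ d / M ≤ (8 * (M : ℝ) + 9) ^ d :=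
          div_le_self (by positivity) hM1'
        refine h2.trans ?_
        calc (8 * (M : ℝ) + 9) ^ d ≤ (17 * L ^ c₁) ^ d :=
              pow_le_pow_left₀ (by positivity) (by linarith only [hMle, hLc1]) _
          _ = 17 ^ d * L ^ (c₁ * d) := by
              rw [mul_pow, ← rpow_natCast (L ^ c₁) d, ← rpow_mul hL0.le]
      have h1L : (1 : ℝ) ≤ L ^ (c₁ * d) := one_le_rpow hL1 (by positivity)
      have h5 : 2 ^ d + 2 * (8 * (M : ℝ) + 9) ^ d / M ≤ (2 ^ d + 2 * 17 ^ d) * L ^ (c₁ * d) := by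
        have h6 : (2 : ℝ) ^ d ≤ 2 ^ d * L ^ (c₁ * d) := le_mul_of_one_le_right (by positivity) h1L
        have h7 : 2 * (8 * (M : ℝ) + 9) ^ d / M = 2 * ((8 * (M : ℝ) + 9) ^ d / M) := by ring
        rw [h7]
        have h8 : (2 ^ d + 2 * 17 ^ d) * L ^ (c₁ * d) =
            2 ^ d * L ^ (c₁ * d) + 2 * (17 ^ d * L ^ (c₁ * d)) := by ring
        linarith only [h1, h6, h8]
      have hs0 : (0 : ℝ) < s := by linarith only [hs1']
      have h9 : (s : ℝ) ^ (q + d + 1) / (L ^ c₂ * s) ^ q = (s : ℝ) ^ (d + 1) * L ^ (-(c₂ * q)) := by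
        rw [mul_pow, ← rpow_natCast (L ^ c₂) q, ← rpow_mul hL0.le, rpow_neg hL0.le, add_assoc,
          pow_add]
        have : 0 < L ^ (c₂ * (q : ℝ)) := by positivity
        field_simp
      have h10 : (s : ℝ) ^ (d + 1) ≤ (2 * K₀) ^ (d + 1) * L ^ (c₂ * (d + 1)) := by
        calc (s : ℝ) ^ (d + 1) ≤ (2 * K₀ * L ^ c₂) ^ (d + 1) := pow_le_pow_left₀ hs0.le hsle _
          _ = (2 * K₀) ^ (d + 1) * L ^ (c₂ * (d + 1)) := by
              rw [mul_pow, ← rpow_natCast (L ^ c₂) (d + 1), ← rpow_mul hL0.le]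
              push_cast
              rfl
      have h11 : C' * |σ| ^ (-A) * (s : ℝ) ^ (q + d + 1) / (L ^ c₂ * s) ^ q =
          C' * L ^ A * ((s : ℝ) ^ (d + 1) * L ^ (-(c₂ * q))) := by
        rw [hσL, neg_neg, mul_div_assoc, h9]
      rw [h11]
      have h12 : C' * L ^ A * ((s : ℝ) ^ (d + 1) * L ^ (-(c₂ * q))) ≤
          C' * (2 * K₀) ^ (d + 1) * L ^ (A + c₂ * (d + 1) - c₂ * q) := by
        have h13 : L ^ (A + c₂ * (d + 1) - c₂ * q) =
            L ^ A * L ^ (c₂ * ((d : ℝ) + 1)) * L ^ (-(c₂ * (q : ℝ))) := by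
          rw [← rpow_add hL0, ← rpow_add hL0]
          ring_nf
        rw [h13]
        calc C' * L ^ A * ((s : ℝ) ^ (d + 1) * L ^ (-(c₂ * q))) ≤
              C' * L ^ A * (((2 * K₀) ^ (d + 1) * L ^ (c₂ * (d + 1))) * L ^ (-(c₂ * q))) :=
              mul_le_mul_of_nonneg_left (mul_le_mul_of_nonneg_right h10 (by positivity))
                (by positivity)
          _ = _ := by ring
      have h14 : L ^ (c₁ * d) * L ^ (A + c₂ * (d + 1) - c₂ * q) ≤ L ^ (-c₁) := by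
        rw [← rpow_add hL0]
        refine rpow_le_rpow_of_exponent_le hL1 ?_
        linarith only [hqq]
      calc (2 ^ d + 2 * (8 * (M : ℝ) + 9) ^ d / M) *
            (4 * 3 ^ d * (d * (C' * L ^ A * ((s : ℝ) ^ (d + 1) * L ^ (-(c₂ * q)))))) ≤
            ((2 ^ d + 2 * 17 ^ d) * L ^ (c₁ * d)) *
            (4 * 3 ^ d * (d * (C' * (2 * K₀) ^ (d + 1) * L ^ (A + c₂ * (d + 1) - c₂ * q)))) := by
            refine mul_le_mul h5 ?_ (by positivity) (by positivity)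
            exact mul_le_mul_of_nonneg_left (mul_le_mul_of_nonneg_left h12 (by positivity))
              (by positivity)
        _ = T₄ * (L ^ (c₁ * d) * L ^ (A + c₂ * (d + 1) - c₂ * q)) := by
            rw [hT₄]
            ring
        _ ≤ T₄ * L ^ (-c₁) := mul_le_mul_of_nonneg_left h14 hT₄0.le
    have hrhs : K * L ^ (-c₁) < (κ / (17 * L ^ c₂)) ^ d := by
      have h1 : (K + 1) * (L ^ (-(1 / ((d : ℝ) * (d + 4)))) * L ^ (-c₂)) ≤ κ / (17 * L ^ c₂) := by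
        rw [le_div_iff₀ (by positivity)]
        rw [hσL] at hκ
        have h2 : L ^ (-c₂) * L ^ c₂ = 1 := by
          rw [← rpow_add hL0]
          simp
        calc (K + 1) * (L ^ (-(1 / ((d : ℝ) * (d + 4)))) * L ^ (-c₂)) * (17 * L ^ c₂) =
              17 * (K + 1) * L ^ (-(1 / ((d : ℝ) * (d + 4)))) * (L ^ (-c₂) * L ^ c₂) := by ring
          _ ≤ κ := by rw [h2, mul_one]; exact hκ
      have h3 : ((K + 1) * (L ^ (-(1 / ((d : ℝ) * (d + 4)))) * L ^ (-c₂))) ^ d =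
          (K + 1) ^ d * L ^ (-c₁) := by
        rw [← rpow_add hL0, mul_pow]
        congr 1
        rw [← rpow_natCast, ← rpow_mul hL0.le]
        congr 1
        rw [← hcd]
        ring
      have h4 : K + 1 ≤ (K + 1) ^ d := le_self_pow₀ (by linarith only [hKpos]) (by omega)
      calc K * L ^ (-c₁) < (K + 1) * L ^ (-c₁) :=
            mul_lt_mul_of_pos_right (by linarith only []) hLn
        _ ≤ (K + 1) ^ d * L ^ (-c₁) := mul_le_mul_of_nonneg_right h4 hLn.le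
        _ = ((K + 1) * (L ^ (-(1 / ((d : ℝ) * (d + 4)))) * L ^ (-c₂))) ^ d := h3.symm
        _ ≤ (κ / (17 * L ^ c₂)) ^ d := pow_le_pow_left₀ (by positivity) h1 _
    refine lt_of_le_of_lt ?_ hrhs
    have hsum : K * L ^ (-c₁) = (T₁ + T₂) * L ^ (-c₁) + T₃ * L ^ (-c₁) + T₄ * L ^ (-c₁) := by
      rw [hK]
      ring
    rw [hsum]
    exact add_le_add (add_le_add t12 t3) t4

end Pool.Agent.LE.H15W
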