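import Pool.Agent.LE.StmtsY
import Pool.Agent.Helper15_LE.SMN
import Pool.Agent.Helper3_LE.SmaR

/-!
# Row SMX: the multiscale induction with explicit constants
-/

set_option autoImplicit false

open MeasureTheory ProbabilityTheory Function Filter

open scoped ENNReal BigOperators Topology

noncomputable section

namespace Pool.Agent.LE.H15X

open Pool.Agent.Anderson Pool.Agent.Loc Pool.Agent.Mob Pool.Agent.Helper54.Bal
  Pool.Agent.LE Pool.Agent.LE.H15

/-- the error terms, exact scales -/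
theorem smx_p2 {k L : ℕ} {m x μk x0 : ℝ} (hm : 0 < m) (hx0 : 0 < x) (hx4 : (4 : ℝ) ^ k * L ≤ x)
    (hLa : 64 * x0 ≤ m * L) (hμ2 : m / 2 ≤ μk) :
    Real.exp (m / 16 * x) ≤ Real.exp (μk * x / 4) * Real.exp (-(4 ^ (k + 1) * x0)) := by
  rw [← Real.exp_add]
  apply Real.exp_le_exp.2
  have e3 : (64 * x0) * 4 ^ k ≤ (m * L) * 4 ^ k := mul_le_mul_of_nonneg_right hLa (by positivity)
  have e4 : m * (4 ^ k * L) ≤ m * x := mul_le_mul_of_nonneg_left hx4 hm.le
  rw [pow_succ]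
  have e5 : m / 2 * x ≤ μk * x := mul_le_mul_of_nonneg_right hμ2 hx0.le
  linarith only [e3, e4, e5]

/-- the numbers of the induction, with the conditions at all the scales as hypotheses -/
theorem smn_core (d : ℕ) (ρ m ε A : ℝ) (N0 L : ℕ) (hd : 1 ≤ d) (hρ : 0 < ρ) (hε : 0 < ε)
    (hεm : ε < m) (hN48 : 48 ≤ N0) (hN0 : 400 * m / ε ≤ N0)
    (hLa : 64 * (2 * d * (56 * (N0 : ℝ) ^ 6 + 3)) ≤ m * L) (hLb : 16 * m ≤ ε * L)
    (c1 : ∀ k, 2 * (d : ℝ) * (3 * (scl N0 L k : ℝ)) ^ d ≤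
      Real.exp (ε / 16 / 2 ^ k * (scl N0 L k : ℝ)))
    (c2 : ∀ k, 8 * (d : ℝ) ^ 2 * (33 * (2 ^ k * N0) * (scl N0 L k : ℝ)) ^ d *
      (3 * (scl N0 L k : ℝ)) ^ d ≤ Real.exp (3 * m / 8 * (scl N0 L k : ℝ)))
    (c3 : ∀ k, 24 * ρ * (5 * (((2 : ℝ) ^ k * N0) ^ 3 * (scl N0 L k : ℝ))) ^ (3 * d + 1) ≤
      Real.exp (m / 16 * (scl N0 L k : ℝ))) :
    ∃ (ℓ : ℕ → ℕ) (μ p : ℕ → ℝ), ℓ 0 = L ∧ μ 0 = m ∧
      p 0 = Real.exp (-(2 * d * (56 * (N0 : ℝ) ^ 6 + 3))) ∧
      (∀ k, 1 ≤ ℓ k ∧ 0 ≤ p k ∧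
        StepN d ρ (ℓ k) (μ k) (p k) (ℓ (k + 1)) (μ (k + 1)) (p (k + 1))) ∧
      ∃ L₁ : ℕ, ∀ M : ℕ, L₁ ≤ M → ∃ k,
        StepN d ρ (ℓ k) (μ k) (p k) M (m - ε) ((M : ℝ) ^ (-A)) := by
  have hm : 0 < m := hε.trans hεm
  have hd1 : (1 : ℝ) ≤ d := by exact_mod_cast hd
  have hN0r : (48 : ℝ) ≤ N0 := by exact_mod_cast hN48
  set x0 : ℝ := 2 * d * (56 * (N0 : ℝ) ^ 6 + 3) with hx0
  have hx2 : 2 ≤ x0 := by
    have h1 : (0 : ℝ) ≤ 56 * (N0 : ℝ) ^ 6 := by positivity
    rw [hx0]; nlinarith only [h1, hd1]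
  have hx0k := x0_ok d N0
  rw [← hx0] at hx0k
  obtain ⟨A', hA'⟩ := exists_nat_ge A
  obtain ⟨X5, hX5⟩ := smn_poly (24 * ρ * (40 * (N0 : ℝ) ^ 6) ^ (3 * d + 1) *
    (8 * (N0 : ℝ) ^ 6) ^ A') (m / 8) (7 * (3 * d + 1) + 7 * A') (by positivity) (by positivity)
  have hL1r : (1 : ℝ) ≤ L := by
    by_contra hcon
    push Not at hcon
    nlinarith only [hcon, hLb, hε, hεm]
  have hL1 : 1 ≤ L := by exact_mod_cast hL1r
  -- the facts of the scale `k`
  have f8 : ∀ k, (8 : ℝ) ^ k * L ≤ scl N0 L k := fun k => by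
    exact_mod_cast scl_le N0 L (by omega) k
  have fL : ∀ k, (L : ℝ) ≤ scl N0 L k := fun k =>
    (le_mul_of_one_le_left (by linarith only [hL1r]) (one_le_pow₀ (by norm_num))).trans (f8 k)
  have f4 : ∀ k, (4 : ℝ) ^ k * L ≤ scl N0 L k := fun k =>
    (mul_le_mul_of_nonneg_right (pow_le_pow_left₀ (by norm_num) (by norm_num) k)
      (by linarith only [hL1r])).trans (f8 k)
  have f4' : ∀ k, (4 : ℝ) ^ k ≤ scl N0 L k := fun k =>
    (le_mul_of_one_le_right (by positivity) hL1r).trans (f4 k)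
  have f2' : ∀ k, (2 : ℝ) ^ k ≤ scl N0 L k := fun k =>
    (pow_le_pow_left₀ (by norm_num) (by norm_num) k).trans (f4' k)
  set μ : ℕ → ℝ := fun k => m - ε / 2 + ε / 2 * (1 / 2) ^ k with hμ
  have hμm : ∀ k, μ k ≤ m := fun k => by
    have : ((1 : ℝ) / 2) ^ k ≤ 1 := pow_le_one₀ (by norm_num) (by norm_num)
    simp only [hμ]
    nlinarith only [this, hε]
  have hμ2 : ∀ k, m / 2 ≤ μ k := fun k => by
    have : 0 ≤ ((1 : ℝ) / 2) ^ k := by positivity
    simp only [hμ]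
    nlinarith only [this, hε, hεm]
  have hN45 : ∀ k, 45 ≤ 2 ^ k * N0 := fun k =>
    (by omega : 45 ≤ N0).trans (Nat.le_mul_of_pos_left _ (by positivity))
  have key : ∀ (k M : ℕ) (μ' p' : ℝ), (2 ^ k * N0) ^ 3 * scl N0 L k ≤ M →
      μ' ≤ μ (k + 1) →
      ((7 * ((M : ℝ) / (scl N0 L k : ℕ))) ^ d * Real.exp (-(4 ^ k * x0))) ^ (2 ^ k * N0 + 1) ≤
        p' / 2 →
      24 * ρ * (5 * (M : ℝ)) ^ (3 * d + 1) ≤ Real.exp (μ k * (scl N0 L k : ℕ) / 4) * p' →
      StepN d ρ (scl N0 L k) (μ k) (Real.exp (-(4 ^ k * x0))) M μ' p' := by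
    intro k M μ' p' hM hμ' h4 h5
    have hxL := fL k
    have hx4 := f4 k
    have hx8 := f8 k
    have hx2' := f2' k
    have hx1 : (1 : ℝ) ≤ scl N0 L k := hL1r.trans hxL
    have hxn : 1 ≤ scl N0 L k := by exact_mod_cast hx1
    set x : ℝ := (scl N0 L k : ℝ) with hxdef
    have h2k : (0 : ℝ) < 2 ^ k := by positivity
    have hh : ((1 : ℝ) / 2) ^ k = 1 / 2 ^ k := by rw [one_div_pow]
    refine stepN_of (δ := ε / 16 / 2 ^ k) (m := m) hxn (hN45 k) (by positivity) ?_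
      (hμm k) hM ?_ ?_ ?_ h4 h5
    · have h8 : ε / 16 / 2 ^ k ≤ ε / 16 := div_le_self (by positivity) (one_le_pow₀ (by norm_num))
      have := hμ2 k
      linarith only [h8, this, hεm, hm]
    · exact c1 k
    · push_cast
      calc 8 * (d : ℝ) ^ 2 * (33 * (2 ^ k * N0) * x) ^ d * (3 * x) ^ d
          ≤ Real.exp (3 * m / 8 * x) := c2 k
        _ ≤ Real.exp (3 * μ k * x / 4) := by
            apply Real.exp_le_exp.2
            have := hμ2 k
            nlinarith only [this, hx1]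
    · have h10 : μ k - μ (k + 1) = ε / 4 / 2 ^ k := by
        simp only [hμ]
        rw [pow_succ, hh]
        ring
      have h11 : m * (48 / ((2 ^ k * N0 : ℕ) : ℝ)) ≤ ε * 48 / 400 / 2 ^ k := by
        push_cast
        have h12 : 400 * m ≤ N0 * ε := by
          rwa [div_le_iff₀ hε] at hN0
        have h13 : m * (48 / (2 ^ k * (N0 : ℝ))) = (m / N0) * 48 / 2 ^ k := by
          field_simp
        rw [h13]
        have h14 : m / (N0 : ℝ) ≤ ε / 400 := by
          rw [div_le_div_iff₀ (by linarith only [hN0r]) (by norm_num)]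
          linarith only [h12]
        have h15 : (m / (N0 : ℝ)) * 48 ≤ ε * 48 / 400 := by linarith only [h14]
        exact div_le_div_of_nonneg_right h15 h2k.le
      have h16 : m * (1 / x) ≤ ε / 16 / 2 ^ k := by
        have h17 : (2 : ℝ) ^ k * L ≤ x :=
          (mul_le_mul_of_nonneg_right (pow_le_pow_left₀ (by norm_num) (by norm_num) k)
            (by linarith only [hL1r])).trans hx8
        rw [mul_one_div, div_le_div_iff₀ (by linarith only [hx1]) h2k]
        have h18 : m * 2 ^ k ≤ ε / 16 * L * 2 ^ k := by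
          apply mul_le_mul_of_nonneg_right _ h2k.le
          linarith only [hLb]
        have h19 : ε / 16 * (2 ^ k * L) ≤ ε / 16 * x :=
          mul_le_mul_of_nonneg_left h17 (by positivity)
        linarith only [h18, h19]
      have h20 : ε / 16 / 2 ^ k + (ε * 48 / 400 / 2 ^ k + ε / 16 / 2 ^ k) ≤ ε / 4 / 2 ^ k := by
        have h21 : ε / 16 / 2 ^ k + (ε * 48 / 400 / 2 ^ k + ε / 16 / 2 ^ k) =
            (ε / 16 + (ε * 48 / 400 + ε / 16)) / 2 ^ k := by ring
        rw [h21]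
        apply div_le_div_of_nonneg_right _ h2k.le
        linarith only [hε]
      rw [mul_add]
      rw [hxdef] at h16
      linarith only [h10, h11, h16, h20, hμ']
  refine ⟨scl N0 L, μ, fun k => Real.exp (-(4 ^ k * x0)), by simp [scl], ?_, ?_, ?_, ?_⟩
  · simp only [hμ, pow_zero]; ring
  · simp only [pow_zero, one_mul]
  · intro k
    have hx1 : (1 : ℝ) ≤ scl N0 L k := hL1r.trans (fL k)
    have hx0' : (0 : ℝ) < scl N0 L k := by linarith only [hx1]
    refine ⟨by exact_mod_cast hx1, (Real.exp_pos _).le, ?_⟩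
    refine key k (scl N0 L (k + 1)) (μ (k + 1)) (Real.exp (-(4 ^ (k + 1) * x0)))
      (by rw [scl_succ]) le_rfl ?_ ?_
    · have e1 : ((scl N0 L (k + 1) : ℕ) : ℝ) / (scl N0 L k : ℕ) = (2 ^ k * N0) ^ 3 := by
        rw [scl_succ]; push_cast; field_simp
      rw [e1]
      exact smn_p1 hN0r (hN45 k) hx2 (hx0k k)
    · have hx4 := f4 k
      rw [scl_succ]
      push_cast
      exact (c3 k).trans (smx_p2 hm hx0' hx4 hLa (hμ2 k))
  · set K : ℝ := (L : ℝ) + 3 * (1 + N0) with hK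
    obtain ⟨k0, hk0⟩ := exists_nat_ge (max X5 (14 * A' * K))
    refine ⟨scl N0 L (k0 + 1), fun M hM => ?_⟩
    obtain ⟨k, hk, hM1, hM2⟩ := scl_find N0 L k0 M (by omega) hL1 hM
    have hkr : (k0 : ℝ) ≤ k := by exact_mod_cast hk
    have hx1 : (1 : ℝ) ≤ scl N0 L k := hL1r.trans (fL k)
    have hx0' : (0 : ℝ) < scl N0 L k := by linarith only [hx1]
    have hM1r : (1 : ℝ) ≤ M :=
      (hL1r.trans (fL (k + 1))).trans (by exact_mod_cast hM1)
    have hM0 : (0 : ℝ) < M := by linarith only [hM1r]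
    -- the upper bound for `M`
    have hMu : (M : ℝ) ≤ 8 * ((2 : ℝ) ^ k * N0) ^ 6 * scl N0 L k := by
      have e1 : (M : ℝ) ≤ scl N0 L (k + 2) := by exact_mod_cast hM2.le
      refine e1.trans (le_of_eq ?_)
      rw [show k + 2 = (k + 1) + 1 by ring, scl_succ, scl_succ]
      push_cast
      rw [pow_succ]
      ring
    have hMx : (M : ℝ) ≤ 8 * (N0 : ℝ) ^ 6 * (scl N0 L k : ℝ) ^ 7 := by
      refine hMu.trans ?_
      have hx2' := f2' k
      set x : ℝ := (scl N0 L k : ℝ) with hxdef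
      calc 8 * ((2 : ℝ) ^ k * N0) ^ 6 * x ≤ 8 * (x * N0) ^ 6 * x := by gcongr
        _ = 8 * (N0 : ℝ) ^ 6 * x ^ 7 := by ring
    have hMe : (M : ℝ) ≤ Real.exp (K * 3 ^ (k + 2)) := by
      have e1 : (M : ℝ) ≤ scl N0 L (k + 2) := by exact_mod_cast hM2.le
      exact e1.trans (scl_exp N0 L (k + 2))
    have hA1 : ((M : ℝ) ^ A')⁻¹ ≤ (M : ℝ) ^ (-A) := by
      rw [← Real.rpow_natCast, ← Real.rpow_neg hM0.le]
      exact Real.rpow_le_rpow_of_exponent_le hM1r (by linarith only [hA'])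
    have hX5' : X5 ≤ scl N0 L k := by
      have e1 : X5 ≤ k := ((le_max_left _ _).trans hk0).trans hkr
      have e2 : (k : ℝ) ≤ 2 ^ k := by
        have : k < 2 ^ k := Nat.lt_two_pow_self
        exact_mod_cast this.le
      exact (e1.trans e2).trans (f2' k)
    refine ⟨k, key k M (m - ε) _ ?_ ?_ ?_ ?_⟩
    · rw [← scl_succ]; exact hM1
    · have : 0 ≤ ((1 : ℝ) / 2) ^ (k + 1) := by positivity
      simp only [hμ]
      nlinarith only [this, hε]
    · refine (smn_p3 (hN45 k) hx2 (hx0k k) hM0 hx0' hMu).trans ?_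
      have hK0 : 0 ≤ K := by rw [hK]; positivity
      refine (smn_p4 hx2 hK0 hM0 hMe ((le_max_right _ _).trans hk0) hkr).trans ?_
      linarith only [hA1]
    · exact (smn_p5 hρ hx1 hM0 hMx (hμ2 k) (hX5 _ hX5')).trans
        (mul_le_mul_of_nonneg_left hA1 (Real.exp_pos _).le)


/-- polynomials against the exponential -/
theorem grow {C W s B : ℝ} (a b : ℕ) (hC : 0 ≤ C) (hW : 1 ≤ W) (hs : 1 ≤ s)
    (hB : C + a + b ≤ B) : C * W ^ a * s ^ b ≤ Real.exp (B * (1 + Real.log W) * s) := by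
  have hlog : 0 ≤ Real.log W := Real.log_nonneg hW
  set Q : ℝ := 1 + Real.log W with hQ
  have hQ1 : 1 ≤ Q := by linarith only [hQ, hlog]
  have hQs : 1 ≤ Q * s := one_le_mul_of_one_le_of_one_le hQ1 hs
  have h1 : C ≤ Real.exp (C * (Q * s)) := by
    have e1 := Real.add_one_le_exp C
    have e2 : Real.exp C ≤ Real.exp (C * (Q * s)) :=
      Real.exp_le_exp.2 (le_mul_of_one_le_right hC hQs)
    linarith only [e1, e2]
  have h2 : W ≤ Real.exp (Q * s) := by
    calc W = Real.exp (Real.log W) := (Real.exp_log (by linarith)).symm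
      _ ≤ Real.exp (Q * s) := Real.exp_le_exp.2 (by nlinarith only [hQ, hQ1, hs])
  have h3 : s ≤ Real.exp (Q * s) := by
    have e1 := Real.add_one_le_exp s
    have e2 : Real.exp s ≤ Real.exp (Q * s) :=
      Real.exp_le_exp.2 (le_mul_of_one_le_left (by linarith only [hs]) hQ1)
    linarith only [e1, e2]
  calc C * W ^ a * s ^ b
      ≤ Real.exp (C * (Q * s)) * Real.exp (Q * s) ^ a * Real.exp (Q * s) ^ b := by gcongr
    _ = Real.exp ((C + a + b) * (Q * s)) := by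
        rw [← Real.exp_nat_mul, ← Real.exp_nat_mul, ← Real.exp_add, ← Real.exp_add]
        congr 1; ring
    _ ≤ Real.exp (B * Q * s) := by
        apply Real.exp_le_exp.2
        calc (C + a + b) * (Q * s) ≤ B * (Q * s) :=
              mul_le_mul_of_nonneg_right hB (by linarith only [hQs])
          _ = B * Q * s := by ring

/-- the facts at the scale `k` -/
theorem scale_facts {N0 L : ℕ} (hN : 8 ≤ N0) (hL : 1 ≤ L) {m W A : ℝ} (hm : 0 < m) (hW : 1 ≤ W)
    (hA : A * (1 + Real.log W) ≤ m * L) (hLW : (L : ℝ) ≤ W) (k : ℕ) :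
    ∃ s : ℝ, 1 ≤ s ∧ (2 : ℝ) ^ k ≤ s ∧ (scl N0 L k : ℝ) ≤ W * s ^ 2 ∧
      A * (1 + Real.log W) * s ≤ m / 2 ^ k * (scl N0 L k : ℝ) := by
  have hLr : (1 : ℝ) ≤ L := by exact_mod_cast hL
  have h8 : (8 : ℝ) ^ k * L ≤ scl N0 L k := by exact_mod_cast scl_le N0 L hN k
  set x : ℝ := (scl N0 L k : ℝ) with hx
  have hy : (8 : ℝ) ^ k ≤ x / L := by
    rw [le_div_iff₀ (by linarith)]
    exact h8
  have hy4 : (4 : ℝ) ^ k ≤ x / L := (pow_le_pow_left₀ (by norm_num) (by norm_num) k).trans hy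
  have hy0 : 0 ≤ x / L := by positivity
  have h2 : (2 : ℝ) ^ k ≤ Real.sqrt (x / L) := by
    apply Real.le_sqrt_of_sq_le
    calc ((2 : ℝ) ^ k) ^ 2 = 4 ^ k := by rw [← pow_mul, mul_comm, pow_mul]; norm_num
      _ ≤ x / L := hy4
  have h21 : (1 : ℝ) ≤ 2 ^ k := one_le_pow₀ (by norm_num)
  have h2k : (0 : ℝ) < 2 ^ k := by positivity
  have hss : Real.sqrt (x / L) ^ 2 = x / L := Real.sq_sqrt hy0
  refine ⟨Real.sqrt (x / L), h21.trans h2, h2, ?_, ?_⟩
  · rw [hss]
    calc x = L * (x / L) := by field_simp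
      _ ≤ W * (x / L) := mul_le_mul_of_nonneg_right hLW hy0
  · have h3 : x = L * (Real.sqrt (x / L) * Real.sqrt (x / L)) := by
      rw [← sq, hss]; field_simp
    have h4 : Real.sqrt (x / L) ≤ Real.sqrt (x / L) * Real.sqrt (x / L) / 2 ^ k := by
      rw [le_div_iff₀ h2k]
      exact mul_le_mul_of_nonneg_left h2 (Real.sqrt_nonneg _)
    calc A * (1 + Real.log W) * Real.sqrt (x / L) ≤ m * L * Real.sqrt (x / L) :=
          mul_le_mul_of_nonneg_right hA (Real.sqrt_nonneg _)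
      _ ≤ m * L * (Real.sqrt (x / L) * Real.sqrt (x / L) / 2 ^ k) :=
          mul_le_mul_of_nonneg_left h4 (by positivity)
      _ = m / 2 ^ k * (L * (Real.sqrt (x / L) * Real.sqrt (x / L))) := by ring
      _ = m / 2 ^ k * x := by rw [← h3]

/-- SMX -/
theorem smx (smp : SmpStmt) : SmxStmt := by
  intro d hd
  have hd1 : (1 : ℝ) ≤ d := by exact_mod_cast hd
  set x0 : ℝ := 2 * d * (56 * ((800 : ℕ) : ℝ) ^ 6 + 3) with hx0
  have hx00 : 0 ≤ x0 := by positivity
  set C1 : ℝ := 2 * d * 3 ^ d with hC1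
  set C2 : ℝ := 8 * (d : ℝ) ^ 2 * (33 * 800) ^ d * 3 ^ d with hC2
  set C3 : ℝ := 24 * (5 * 800 ^ 3) ^ (3 * d + 1) with hC3
  have hC10 : 0 ≤ C1 := by positivity
  have hC20 : 0 ≤ C2 := by positivity
  have hC30 : 0 ≤ C3 := by positivity
  set B : ℝ := 32 + 2 * x0 + (C1 + d + 2 * d) + (C2 + 2 * d + 5 * d) +
    (C3 + (3 * d + 2) + 5 * (3 * d + 1)) with hB
  have hd0 : (0 : ℝ) ≤ d := by linarith only [hd1]
  have hBx : 32 + 2 * x0 ≤ B := by linarith only [hB, hC10, hC20, hC30, hd0]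
  have hB1 : C1 + d + 2 * d ≤ B := by linarith only [hB, hx00, hC10, hC20, hC30, hd0]
  have hB2 : C2 + 2 * d + 5 * d ≤ B := by linarith only [hB, hx00, hC10, hC20, hC30, hd0]
  have hB3 : C3 + (3 * d + 2) + 5 * (3 * d + 1) ≤ B := by
    linarith only [hB, hx00, hC10, hC20, hC30, hd0]
  refine ⟨32 * B, Real.exp (-x0), by linarith only [hBx, hx00], Real.exp_pos _, ?_⟩
  intro σ E m L hσ hσ1 hm hm1 hL hcond hP
  have hσ0 : 0 < |σ| := abs_pos.2 hσ
  have hLr : (1 : ℝ) ≤ L := by exact_mod_cast hL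
  set W : ℝ := L / (|σ| * m) with hW
  have hden : |σ| * m ≤ 1 := mul_le_one₀ hσ1 hm.le hm1
  have hden0 : 0 < |σ| * m := by positivity
  have hLW : (L : ℝ) ≤ W := by
    rw [hW, le_div_iff₀ hden0]
    exact mul_le_of_le_one_right (Nat.cast_nonneg _) hden
  have hW1 : 1 ≤ W := hLr.trans hLW
  have hσW : 1 / |σ| ≤ W := by
    rw [hW, div_le_div_iff₀ hσ0 hden0]
    linarith only [mul_le_mul_of_nonneg_left hm1 hσ0.le, mul_le_mul_of_nonneg_right hLr hσ0.le]
  have hQ1 : 1 ≤ 1 + Real.log W := by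
    have := Real.log_nonneg hW1
    linarith only [this]
  have hfac := scale_facts (N0 := 800) (by norm_num) hL hm hW1 hcond hLW
  have hBL : 32 * B ≤ m * L := by
    have h1 : 32 * B * 1 ≤ 32 * B * (1 + Real.log W) :=
      mul_le_mul_of_nonneg_left hQ1 (by linarith only [hBx, hx00])
    linarith only [h1, hcond]
  have hL32 : 32 * B ≤ L := by
    have : m * (L : ℝ) ≤ L := mul_le_of_le_one_left (Nat.cast_nonneg _) hm1
    linarith only [this, hBL]
  obtain ⟨ℓ, μ, p, hℓ0, hμ0, hp0, hstep, L₁, hlast⟩ := smn_core d (1 / |σ|) m (m / 2) 1 800 L hd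
    (by positivity) (by positivity) (by linarith only [hm]) (by norm_num)
    (by rw [div_le_iff₀ (by positivity)]; push_cast; linarith only [hm])
    (by rw [← hx0]; linarith only [hBL, hBx])
    (by
      have h1 : (32 : ℝ) ≤ L := by linarith only [hL32, hBx, hx00]
      have h2 := mul_le_mul_of_nonneg_left h1 hm.le
      linarith only [h2])
    (by
      intro k
      obtain ⟨s, hs1, hs2, hs3, hs4⟩ := hfac k
      set x : ℝ := (scl 800 L k : ℝ) with hx
      have hx0 : 0 ≤ x := Nat.cast_nonneg _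
      have h1 := grow (C := C1) (B := B) d (2 * d) hC10 hW1 hs1
        (by push_cast; linarith only [hB1])
      calc 2 * (d : ℝ) * (3 * x) ^ d ≤ 2 * d * (3 * (W * s ^ 2)) ^ d := by gcongr
        _ = C1 * W ^ d * s ^ (2 * d) := by rw [hC1, mul_pow, mul_pow, ← pow_mul]; ring
        _ ≤ Real.exp (B * (1 + Real.log W) * s) := h1
        _ ≤ Real.exp (m / 2 / 16 / 2 ^ k * x) := by
            apply Real.exp_le_exp.2
            have h2 : m / 2 / 16 / 2 ^ k * x = (m / 2 ^ k * x) / 32 := by ring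
            rw [h2]
            linarith only [hs4])
    (by
      intro k
      obtain ⟨s, hs1, hs2, hs3, hs4⟩ := hfac k
      set x : ℝ := (scl 800 L k : ℝ) with hx
      have hx0 : 0 ≤ x := Nat.cast_nonneg _
      have h1 := grow (C := C2) (B := B) (2 * d) (5 * d) hC20 hW1 hs1
        (by push_cast; linarith only [hB2])
      calc 8 * (d : ℝ) ^ 2 * (33 * (2 ^ k * ((800 : ℕ) : ℝ)) * x) ^ d * (3 * x) ^ d
          ≤ 8 * (d : ℝ) ^ 2 * (33 * (s * 800) * (W * s ^ 2)) ^ d * (3 * (W * s ^ 2)) ^ d := by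
            push_cast
            gcongr
        _ = C2 * W ^ (2 * d) * s ^ (5 * d) := by
            rw [hC2]
            have e1 : 33 * (s * 800) * (W * s ^ 2) = (33 * 800) * (W * s ^ 3) := by ring
            rw [e1, mul_pow (33 * 800 : ℝ), mul_pow W, mul_pow (3 : ℝ), mul_pow W, ← pow_mul,
              ← pow_mul, show 5 * d = 3 * d + 2 * d by ring, pow_add s, show 2 * d = d + d by ring,
              pow_add W]
            ring
        _ ≤ Real.exp (B * (1 + Real.log W) * s) := h1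
        _ ≤ Real.exp (3 * m / 8 * x) := by
            apply Real.exp_le_exp.2
            have h2 : m / 2 ^ k * x ≤ m * x := by
              apply mul_le_mul_of_nonneg_right _ hx0
              exact div_le_self hm.le (one_le_pow₀ (by norm_num))
            have h3 : 0 ≤ m * x := mul_nonneg hm.le hx0
            linarith only [hs4, h2, h3])
    (by
      intro k
      obtain ⟨s, hs1, hs2, hs3, hs4⟩ := hfac k
      set x : ℝ := (scl 800 L k : ℝ) with hx
      have hx0 : 0 ≤ x := Nat.cast_nonneg _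
      have h1 := grow (C := C3) (B := B) (3 * d + 2) (5 * (3 * d + 1)) hC30 hW1 hs1
        (by push_cast; linarith only [hB3])
      calc 24 * (1 / |σ|) * (5 * (((2 : ℝ) ^ k * ((800 : ℕ) : ℝ)) ^ 3 * x)) ^ (3 * d + 1)
          ≤ 24 * W * (5 * ((s * 800) ^ 3 * (W * s ^ 2))) ^ (3 * d + 1) := by
            push_cast
            gcongr
        _ = C3 * W ^ (3 * d + 2) * s ^ (5 * (3 * d + 1)) := by
            rw [hC3]
            have e1 : 5 * ((s * 800) ^ 3 * (W * s ^ 2)) = (5 * 800 ^ 3) * (W * s ^ 5) := by ring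
            rw [e1, mul_pow (5 * 800 ^ 3 : ℝ), mul_pow W, ← pow_mul,
              show 3 * d + 2 = (3 * d + 1) + 1 by ring, pow_succ W]
            ring
        _ ≤ Real.exp (B * (1 + Real.log W) * s) := h1
        _ ≤ Real.exp (m / 16 * x) := by
            apply Real.exp_le_exp.2
            have h2 : m / 2 ^ k * x ≤ m * x := by
              apply mul_le_mul_of_nonneg_right _ hx0
              exact div_le_self hm.le (one_le_pow₀ (by norm_num))
            have h3 : 0 ≤ m * x := mul_nonneg hm.le hx0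
            linarith only [hs4, h2, h3])
  have hν := bddDens_gl hσ
  have hk : ∀ k, PP d (gl σ) {V | ¬ AllGoodC V 0 (ℓ k) (μ k) E} ≤ ENNReal.ofReal (p k) := by
    intro k
    induction k with
    | zero =>
      rw [hℓ0, hμ0, hp0]
      exact hP
    | succ k ih =>
      exact H3R.stepN_apply smp (gl σ) hν E (hstep k).1 (hstep k).2.1 (hstep k).2.2 ih
  have hm2 : m - m / 2 = m / 2 := by ring
  have hev : ∀ᶠ M : ℕ in atTop, PP d (gl σ) {V | ¬ AllGoodC V 0 M (m / 2) E} ≤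
      ENNReal.ofReal ((M : ℝ) ^ (-(1 : ℝ))) := by
    filter_upwards [eventually_ge_atTop L₁] with M hM
    obtain ⟨k, hs⟩ := hlast M hM
    rw [hm2] at hs
    exact H3R.stepN_apply smp (gl σ) hν E (hstep k).1 (hstep k).2.1 hs (hk k)
  have hlim : Tendsto (fun M : ℕ => ENNReal.ofReal ((M : ℝ) ^ (-(1 : ℝ)))) atTop (𝓝 0) := by
    have h1 := (tendsto_rpow_neg_atTop (y := 1) one_pos).comp
      (tendsto_natCast_atTop_atTop (R := ℝ))
    have h2 := (ENNReal.continuous_ofReal.tendsto 0).comp h1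
    rw [ENNReal.ofReal_zero] at h2
    exact h2
  exact tendsto_of_tendsto_of_tendsto_of_le_of_le' tendsto_const_nhds hlim
    (Eventually.of_forall fun _ => zero_le) hev

end Pool.Agent.LE.H15X
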